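import Pool.Agent.Run7.h845.Main

/-!
# MP_af4367_an: a bound for the contact angle of finite travelling waves
-/

set_option autoImplicit false

open MeasureTheory Set Filter Topology

open Pool.Agent.R525.MS (E)
open Run7.h845

/-- Let `φ` be a finite travelling wave of the `p`-Laplacian, `p > 2`, of speed `c > 0` in the tube
`D × ℝ`, let `P` be a contact point and `m = (n, 0)` the inner unit normal of the wall at `P`.
If near `P` the positivity set of `φ` lies, to first order, below a hyperplane through `P` with unit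
normal `ν`, which is not vertical, then `ν` points upwards and the angle between `-m` and `ν`, which
is the contact angle, is at most `π / √(2 p - 3)`. -/
theorem Pool.Agent.Results.MP_af4367_an.ContactAngle.result
    (N : ℕ) (D : Set (E N)) (hD : IsSmoothDomain D) (p c : ℝ) (hp : 2 < p) (hc : 0 < c)
    (φ : E (N + 1) → ℝ) (hφ : IsFiniteWave D p c φ)
    (P : E (N + 1)) (hP : IsContact D φ P) (n : E N) (hn : IsInnerNormal D (sec P) n)
    (ν : E (N + 1)) (hν : ‖ν‖ = 1) (hν0 : ax ν ≠ 0)
    (hbelow : ∀ ε : ℝ, 0 < ε → ∀ᶠ X in 𝓝 P, X ∈ tube D → 0 < φ X →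
      inner ℝ (X - P) ν ≤ ε * ‖X - P‖) :
    0 < ax ν ∧ InnerProductGeometry.angle (-pt n 0) ν ≤ Real.pi / Real.sqrt (2 * p - 3) :=
  contact_angle hD hp hc hφ hP hn hν hν0 hbelow
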